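import Pool.Agent.H354.BG.Cen
import Pool.Graph.R_pool_sql_team_seeded_f0cf7b00.H482R3.EC.ZISO

set_option autoImplicit false

/-! # Centres of Artin groups over an arbitrary graph of blocks

Let the generators of an irreducible non-spherical Artin group be divided into at least two blocks
such that any two different blocks either commute (all labels between them are `2`) or have only
even labels `≥ 4` or `∞` between them; the labels inside the blocks are arbitrary, and there is no
condition on the pattern of the commuting pairs of blocks. Then the centre is trivial.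

Outline. Let `b` be a block, `U` the union of the other blocks, `Z` the union of those which
commute with `b`. By the normal form theorem of the project BG (see `MP_a1ec0a_al.BlockGraph`) for
the kernel `K` of the retraction `A_M → A_U`, every element of `K` has a code, whose last syllable
gives a point `(g A_Z, v)` or a line (`g A_Z` or `(v, w, g ⟨w⟩ A_{Z ∩ w^⊥})`) of the geometry, and
`A_U` acts on codes by translations. If `z = k h` is central, `k ∈ K`, `h ∈ A_U`, then `k`
commutes with `A_U`, so the last point or line of its code is fixed by `A_U`. This is impossible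
if there is a generator outside of `Z ∪ b` and if for every line type `w` there is a generator of
`U` different from `w` and not in `Z ∩ w^⊥`. So `k = 1`, `z ∈ A_U`, and since `z` commutes with
`b`, `z ∈ A_Z` (no short relations in `K`). The blocks for which this fails are treated by the
block of the line type `w`, and the intersection of the parabolic subgroups obtained is trivial.

The modules of the project BG were formalised with helpers 23, 34, 36, 38, 47, 59, 105, 167, 187,
199, 229, 230, 289, 297, 333, 337, 349, 379, 415, 618, 658, 662, 665, 671, 727, 746, 763, 800,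
807, 881, 909 and 935; it uses the library project of helper482 (`H482R3`). -/

namespace Pool.Agent.Results.MP_6d85b4_al.BlockGraphCentre

/-- The Artin group on `Fin n` with labels `m` (`0` stands for infinity). -/
abbrev Artin {n : ℕ} (m : Fin n → Fin n → ℕ) : Type :=
  PresentedGroup
    {r : FreeGroup (Fin n) | ∃ i j : Fin n, m i j ≠ 0 ∧
      r = ((CoxeterSystem.alternatingWord i j (m i j)).map FreeGroup.of).prod *
        (((CoxeterSystem.alternatingWord j i (m i j)).map FreeGroup.of).prod)⁻¹}

open Pool.Agent.H482R3.EB (AR gR Symm)
open Pool.Agent.H354.BG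

/-- finite dihedral groups are finite -/
theorem fin2 (M : CoxeterMatrix (Fin 2)) (h : M 0 1 ≠ 0) : Finite M.Group := by
  let cs := M.toCoxeterSystem
  have hs : cs.simple 0 * cs.simple 0 = 1 := cs.simple_mul_simple_self 0
  have ht : cs.simple 1 * cs.simple 1 = 1 := cs.simple_mul_simple_self 1
  have hp : (cs.simple 0 * cs.simple 1) ^ M 0 1 = 1 := cs.simple_mul_simple_pow 0 1
  have hfo : IsOfFinOrder (cs.simple 0 * cs.simple 1) :=
    isOfFinOrder_iff_pow_eq_one.mpr ⟨M 0 1, Nat.pos_of_ne_zero h, hp⟩
  have hK : (Subgroup.zpowers (cs.simple 0 * cs.simple 1) : Set M.Group).Finite :=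
    finite_zpowers.mpr hfo
  have hS := hK.union (hK.image (fun x => x * cs.simple 0))
  have hall : ∀ g : M.Group, g ∈ (Subgroup.zpowers (cs.simple 0 * cs.simple 1) : Set M.Group) ∪
      (fun x => x * cs.simple 0) ''
        (Subgroup.zpowers (cs.simple 0 * cs.simple 1) : Set M.Group) := by
    intro g
    refine cs.simple_induction_right g ?_ ?_
    · exact Or.inl (Subgroup.one_mem _)
    · rintro w i (hw | ⟨x, hx, rfl⟩)
      · fin_cases i
        · exact Or.inr ⟨w, hw, rfl⟩
        · refine Or.inr ⟨w * (cs.simple 0 * cs.simple 1)⁻¹,
            Subgroup.mul_mem _ hw (Subgroup.inv_mem _ (Subgroup.mem_zpowers _)), ?_⟩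
          have ht' : (cs.simple 1)⁻¹ = cs.simple 1 := inv_eq_of_mul_eq_one_left ht
          show w * (cs.simple 0 * cs.simple 1)⁻¹ * cs.simple 0 = w * cs.simple 1
          rw [mul_inv_rev, ht', mul_assoc, mul_assoc, inv_mul_cancel, mul_one]
      · fin_cases i
        · refine Or.inl ?_
          show x * cs.simple 0 * cs.simple 0 ∈ _
          rw [mul_assoc, hs, mul_one]
          exact hx
        · refine Or.inl ?_
          show x * cs.simple 0 * cs.simple 1 ∈ _
          rw [mul_assoc]
          exact Subgroup.mul_mem _ hx (Subgroup.mem_zpowers _)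
  exact Set.finite_univ_iff.mp (hS.subset (fun g _ => hall g))

/-- Let `M` be a Coxeter matrix (`0` stands for infinity) with connected Coxeter graph and infinite
Coxeter group, and let the generators be divided into at least two blocks by `β`, such that for
any two different blocks `a`, `b` either all labels between `a` and `b` are `2`, or all of them
are even and at least `4`, or infinite. Then the Artin group of `M` has trivial centre. -/
theorem result (n r : ℕ) (M : CoxeterMatrix (Fin n)) (β : Fin n → Fin r)
    (hcon : (SimpleGraph.fromRel (fun i j : Fin n => M i j ≠ 2)).Connected)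
    (hinf : Infinite M.Group)
    (h2 : ∃ i j, β i ≠ β j)
    (h : ∀ a b : Fin r, a ≠ b →
      (∀ i j, β i = a → β j = b → M i j = 2) ∨
      (∀ i j, β i = a → β j = b → Even (M i j) ∧ M i j ≠ 2)) :
    Subgroup.center (Artin M) = ⊥ := by
  classical
  let D : Dat :=
    { n := n
      m := fun i j => M i j
      r := r
      β := β
      R := fun a b => decide (∀ i j, β i = a → β j = b → M i j = 2)
      symm := fun s t => M.symmetric s t
      ne1 := fun s t h => M.off_diagonal s t h
      Rsymm := fun a b => by
        refine decide_eq_decide.mpr ⟨fun h1 i j hi hj => ?_, fun h1 i j hi hj => ?_⟩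
        · rw [M.symmetric i j]; exact h1 j i hj hi
        · rw [M.symmetric i j]; exact h1 j i hj hi
      com := fun s t hst hR => (of_decide_eq_true hR) s t rfl rfl
      cro := fun s t hst hR => by
        rcases h (β s) (β t) hst with h1 | h1
        · exact absurd h1 (of_decide_eq_false hR)
        · exact h1 s t rfl rfl }
  have hn : 3 ≤ n ∨ ∃ i j : Fin n, i ≠ j ∧ M i j = 0 := by
    by_contra hno
    push Not at hno
    obtain ⟨h3, h0⟩ := hno
    obtain ⟨i, j, hij⟩ := h2
    interval_cases n
    · exact i.elim0
    · exact hij (by rw [Subsingleton.elim i j])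
    · have h1 : M 0 1 ≠ 0 := h0 0 1 (by decide)
      have := fin2 M h1
      exact not_finite M.Group
  have hcut : ∀ T : Finset (Fin n), T.Nonempty → Tᶜ.Nonempty →
      ∃ s ∈ T, ∃ t ∈ Tᶜ, M s t ≠ 2 := by
    rintro T ⟨s, hs⟩ ⟨t, ht⟩
    obtain ⟨p⟩ := hcon.preconnected s t
    obtain ⟨d, -, hd1, hd2⟩ := p.exists_boundary_dart (T : Set (Fin n))
      (Finset.mem_coe.mpr hs) (fun h' => (Finset.mem_compl.mp ht) (Finset.mem_coe.mp h'))
    refine ⟨d.fst, Finset.mem_coe.mp hd1, d.snd,
      Finset.mem_compl.mpr (fun h' => hd2 (Finset.mem_coe.mpr h')), ?_⟩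
    have h3 := (SimpleGraph.fromRel_adj _ _ _).mp d.adj
    rcases h3.2 with h4 | h4
    · exact h4
    · rw [M.symmetric]; exact h4
  obtain ⟨f⟩ := (Pool.Agent.H482R3.EB.ZISO.t_ISOA Pool.Agent.H482R3.EB.t_LIFTR
    Pool.Agent.H482R3.EB.t_LIFTJ Pool.Agent.H482R3.EB.t_RELR) n (fun i j => M i j)
    (fun i => M.diagonal i) (fun i j => M.symmetric i j)
  have key : ∀ z : Artin M, z ∈ Subgroup.center (Artin M) → z = 1 := by
    intro z hz
    have hcen : ∀ x : D.A, x * f z = f z * x := by
      intro x
      have h1 := Subgroup.mem_center_iff.1 hz (f.symm x)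
      have h2 := congrArg f h1
      rw [map_mul, map_mul, MulEquiv.apply_symm_apply] at h2
      exact h2
    have h3 : f z = 1 := Cen.cen_main D hn hcut h2 (f z) hcen
    exact (map_eq_one_iff f f.injective).1 h3
  exact (Subgroup.eq_bot_iff_forall _).mpr key

end Pool.Agent.Results.MP_6d85b4_al.BlockGraphCentre
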